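import Pool.Agent.Y75.NK.K0

set_option autoImplicit false

/-!
Classes in `K₀` of projective modules given by presentations.
-/

namespace Pool.Agent.Y75.NK

open Matrix

variable {A : Type} [Ring A]

/-- The projective module `Aⁿ e` of row vectors. -/
abbrev W (e : Idem A) : Submodule A (Fin e.n → A) := LinearMap.range e.e.vecMulLinear

theorem equiv_of_linearEquiv {e f : Idem A} (α : W e ≃ₗ[A] W f) : e.Equiv f := by
  classical
  let F : (Fin e.n → A) →ₗ[A] (Fin f.n → A) :=
    ((W f).subtype.comp α.toLinearMap).comp e.e.vecMulLinear.rangeRestrict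
  let G : (Fin f.n → A) →ₗ[A] (Fin e.n → A) :=
    ((W e).subtype.comp α.symm.toLinearMap).comp f.e.vecMulLinear.rangeRestrict
  have he : ∀ w : W e, e.e.vecMulLinear.rangeRestrict w.1 = w := by
    rintro ⟨_, v, rfl⟩
    apply Subtype.ext
    change (v ᵥ* e.e) ᵥ* e.e = v ᵥ* e.e
    rw [Matrix.vecMul_vecMul, e.idem]
  have hf : ∀ w : W f, f.e.vecMulLinear.rangeRestrict w.1 = w := by
    rintro ⟨_, v, rfl⟩
    apply Subtype.ext
    change (v ᵥ* f.e) ᵥ* f.e = v ᵥ* f.e
    rw [Matrix.vecMul_vecMul, f.idem]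
  refine ⟨LinearMap.toMatrixRight' F, LinearMap.toMatrixRight' G, ?_, ?_⟩
  · apply Matrix.toLinearMapRight'.injective
    rw [Matrix.toLinearMapRight'_mul]
    have h1 : Matrix.toLinearMapRight' (LinearMap.toMatrixRight' F) = F :=
      LinearEquiv.symm_apply_apply _ _
    have h2 : Matrix.toLinearMapRight' (LinearMap.toMatrixRight' G) = G :=
      LinearEquiv.symm_apply_apply _ _
    rw [h1, h2]
    apply LinearMap.ext
    intro v
    change ((α.symm (f.e.vecMulLinear.rangeRestrict
      (α (e.e.vecMulLinear.rangeRestrict v)).1)).1 : Fin e.n → A) = v ᵥ* e.e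
    rw [hf, LinearEquiv.symm_apply_apply]
    rfl
  · apply Matrix.toLinearMapRight'.injective
    rw [Matrix.toLinearMapRight'_mul]
    have h1 : Matrix.toLinearMapRight' (LinearMap.toMatrixRight' F) = F :=
      LinearEquiv.symm_apply_apply _ _
    have h2 : Matrix.toLinearMapRight' (LinearMap.toMatrixRight' G) = G :=
      LinearEquiv.symm_apply_apply _ _
    rw [h1, h2]
    apply LinearMap.ext
    intro v
    change ((α (e.e.vecMulLinear.rangeRestrict
      (α.symm (f.e.vecMulLinear.rangeRestrict v)).1)).1 : Fin f.n → A) = v ᵥ* f.e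
    rw [he, LinearEquiv.apply_symm_apply]
    rfl

/-- The idempotent `1 - YB` where `BYB = B`. -/
def regIdem {p q : ℕ} (B : Matrix (Fin p) (Fin q) A) (Y : Matrix (Fin q) (Fin p) A)
    (h : B * Y * B = B) : Idem A where
  n := q
  e := 1 - Y * B
  idem := by
    have h1 : Y * B * (Y * B) = Y * B := by
      rw [Matrix.mul_assoc, ← Matrix.mul_assoc B Y B, h]
    rw [mul_sub, sub_mul, sub_mul, one_mul, one_mul, mul_one, h1, sub_self, sub_zero]

theorem regIdem_equiv {p q : ℕ} (B : Matrix (Fin p) (Fin q) A) (Y : Matrix (Fin q) (Fin p) A)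
    (h : B * Y * B = B) :
    Nonempty (((Fin q → A) ⧸ LinearMap.range B.vecMulLinear) ≃ₗ[A] W (regIdem B Y h)) := by
  have hk : LinearMap.range B.vecMulLinear =
      LinearMap.ker (1 - Y * B : Matrix (Fin q) (Fin q) A).vecMulLinear := by
    ext v
    constructor
    · rintro ⟨w, rfl⟩
      rw [LinearMap.mem_ker]
      change (w ᵥ* B) ᵥ* (1 - Y * B) = 0
      rw [Matrix.vecMul_vecMul, Matrix.mul_sub, Matrix.mul_one, ← Matrix.mul_assoc, h, sub_self,
        Matrix.vecMul_zero]
    · intro hv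
      rw [LinearMap.mem_ker] at hv
      change v ᵥ* (1 - Y * B) = 0 at hv
      rw [Matrix.vecMul_sub, Matrix.vecMul_one, sub_eq_zero] at hv
      refine ⟨v ᵥ* Y, ?_⟩
      change (v ᵥ* Y) ᵥ* B = v
      rw [Matrix.vecMul_vecMul, ← hv]
  let φ : ((Fin q → A) ⧸ LinearMap.range B.vecMulLinear) ≃ₗ[A]
      LinearMap.range (1 - Y * B : Matrix (Fin q) (Fin q) A).vecMulLinear :=
    (Submodule.quotEquivOfEq _ _ hk).trans (LinearMap.quotKerEquivRange _)
  exact ⟨φ⟩

theorem W_sum (e f : Idem A) : Nonempty (W (e.sum f) ≃ₗ[A] W e × W f) := by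
  let a : (Fin (e.n + f.n) → A) →ₗ[A] (Fin e.n → A) := LinearMap.funLeft A A (Fin.castAdd f.n)
  let b : (Fin (e.n + f.n) → A) →ₗ[A] (Fin f.n → A) := LinearMap.funLeft A A (Fin.natAdd e.n)
  let T : (Fin (e.n + f.n) → A) →ₗ[A] W e × W f :=
    (e.e.vecMulLinear.rangeRestrict.comp a).prod (f.e.vecMulLinear.rangeRestrict.comp b)
  have hT : Function.Surjective T := by
    rintro ⟨⟨_, v, rfl⟩, ⟨_, w, rfl⟩⟩
    refine ⟨Fin.append v w, ?_⟩
    apply Prod.ext
    · apply Subtype.ext
      change (fun i => Fin.append v w (Fin.castAdd f.n i)) ᵥ* e.e = v ᵥ* e.e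
      simp only [Fin.append_left]
    · apply Subtype.ext
      change (fun i => Fin.append v w (Fin.natAdd e.n i)) ᵥ* f.e = w ᵥ* f.e
      simp only [Fin.append_right]
  let S : Matrix (Fin (e.n + f.n)) (Fin (e.n + f.n)) A :=
    (Matrix.fromBlocks e.e 0 0 f.e).submatrix finSumFinEquiv.symm finSumFinEquiv.symm
  have hk : LinearMap.ker T = LinearMap.ker S.vecMulLinear := by
    ext v
    rw [LinearMap.mem_ker, LinearMap.mem_ker]
    have h1 : T v = 0 ↔ (fun i => v (Fin.castAdd f.n i)) ᵥ* e.e = 0 ∧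
        (fun i => v (Fin.natAdd e.n i)) ᵥ* f.e = 0 := by
      constructor
      · intro h
        exact ⟨congrArg (fun z : W e × W f => z.1.1) h, congrArg (fun z : W e × W f => z.2.1) h⟩
      · rintro ⟨h1, h2⟩
        exact Prod.ext (Subtype.ext h1) (Subtype.ext h2)
    have h2 : S.vecMulLinear v =
        Fin.append ((fun i => v (Fin.castAdd f.n i)) ᵥ* e.e)
          ((fun i => v (Fin.natAdd e.n i)) ᵥ* f.e) := by
      change v ᵥ* ((Matrix.fromBlocks e.e 0 0 f.e).submatrix finSumFinEquiv.symm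
        finSumFinEquiv.symm) = _
      funext j
      refine Fin.addCases (fun j => ?_) (fun j => ?_) j
      · rw [Fin.append_left]
        simp only [Matrix.vecMul, dotProduct, Matrix.submatrix_apply]
        rw [← finSumFinEquiv.sum_comp, Fintype.sum_sum_type]
        simp
      · rw [Fin.append_right]
        simp only [Matrix.vecMul, dotProduct, Matrix.submatrix_apply]
        rw [← finSumFinEquiv.sum_comp, Fintype.sum_sum_type]
        simp
    rw [h1, h2]
    constructor
    · rintro ⟨h3, h4⟩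
      rw [h3, h4]
      funext j
      refine Fin.addCases (fun j => ?_) (fun j => ?_) j <;> simp
    · intro h
      constructor
      · funext j
        have := congrFun h (Fin.castAdd f.n j)
        rwa [Fin.append_left] at this
      · funext j
        have := congrFun h (Fin.natAdd e.n j)
        rwa [Fin.append_right] at this
  let ψ : LinearMap.range S.vecMulLinear ≃ₗ[A] W e × W f :=
    (((LinearMap.quotKerEquivOfSurjective T hT).symm.trans
      (Submodule.quotEquivOfEq _ _ hk)).trans (LinearMap.quotKerEquivRange _)).symm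
  exact ⟨ψ⟩

theorem cls_pi : ∀ (k : ℕ) (f : Fin k → Idem A), ∃ g : Idem A,
    cls g = ∑ b, cls (f b) ∧ Nonempty (W g ≃ₗ[A] ∀ b, W (f b))
  | 0, f => by
    let g : Idem A := ⟨0, 0, by simp⟩
    refine ⟨g, ?_, ?_⟩
    · have h1 : (g.sum g).Equiv g := ⟨0, 0, by
        ext i j
        exact i.elim0, by
        ext i j
        exact i.elim0⟩
      have h2 := cls_eq h1
      rw [cls_sum] at h2
      have h3 : cls g = 0 := by simpa using h2
      rw [h3]
      simp
    · have : Subsingleton (W g) := ⟨fun x y => Subtype.ext (funext fun i => i.elim0)⟩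
      have : Subsingleton (∀ b, W (f b)) := ⟨fun x y => funext fun i => i.elim0⟩
      exact ⟨⟨0, 0, fun x => Subsingleton.elim _ _, fun x => Subsingleton.elim _ _⟩⟩
  | k + 1, f => by
    obtain ⟨g, hg, ⟨α⟩⟩ := cls_pi k (fun b => f b.succ)
    obtain ⟨β⟩ := W_sum (f 0) g
    refine ⟨(f 0).sum g, ?_, ?_⟩
    · rw [cls_sum, hg, Fin.sum_univ_succ]
    · exact ⟨(β.trans ((LinearEquiv.refl A _).prodCongr α)).trans
        (Fin.consLinearEquiv A (fun b => W (f b)))⟩

/-- If `Aⁿ e` is the direct sum of the cokernels of matrices `B_b` with `B_b Y_b B_b = B_b`, then its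
class is the sum of the classes of the idempotents `1 - Y_b B_b`. -/
theorem cls_of_coker (e : Idem A) (k : ℕ) (p q : Fin k → ℕ)
    (B : ∀ b, Matrix (Fin (p b)) (Fin (q b)) A) (Y : ∀ b, Matrix (Fin (q b)) (Fin (p b)) A)
    (h : ∀ b, B b * Y b * B b = B b)
    (α : W e ≃ₗ[A] ∀ b, ((Fin (q b) → A) ⧸ LinearMap.range (B b).vecMulLinear)) :
    cls e = ∑ b, cls (regIdem (B b) (Y b) (h b)) := by
  obtain ⟨g, hg, ⟨β⟩⟩ := cls_pi k (fun b => regIdem (B b) (Y b) (h b))
  rw [← hg]
  apply cls_eq
  apply equiv_of_linearEquiv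
  exact (α.trans (LinearEquiv.piCongrRight fun b => (regIdem_equiv (B b) (Y b) (h b)).some)).trans
    β.symm

theorem regIdem_map {B' : Type} [Ring B'] (φ : A →+* B') {p q : ℕ}
    (B : Matrix (Fin p) (Fin q) A) (Y : Matrix (Fin q) (Fin p) A)
    (h : B * Y * B = B) (h' : B.map φ * Y.map φ * B.map φ = B.map φ) :
    (regIdem B Y h).map φ = regIdem (B.map φ) (Y.map φ) h' := by
  have h1 : (1 - Y * B : Matrix (Fin q) (Fin q) A).map φ = 1 - Y.map φ * B.map φ := by
    rw [Matrix.map_sub φ (map_sub φ), Matrix.map_mul, Matrix.map_one φ (map_zero φ) (map_one φ)]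
  unfold Idem.map regIdem
  congr 1

end Pool.Agent.Y75.NK
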