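import Pool.Agent.Y75.NK.Lau
import Pool.Agent.Y75.NK.Mod
import Pool.Agent.TH6.FB.Mod

set_option autoImplicit false

/-!
Classes in the negative `K`-groups of a group ring which are controlled over the group.
-/

namespace Pool.Agent.Y75.NK

open CategoryTheory TH6.FB TH6.PF TH57.Thr Matrix

/-- The image of `K_{-m}(R[V])` in `K_{-m}(R[G])`, for a subgroup `V` of `G`. -/
noncomputable def img (R : Type) [Ring R] (m : ℕ) (G : GrpCat.{0}) (V : Subgroup G) :
    AddSubgroup ((Kneg m).obj ((gr R).obj G)) :=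
  ((gr R ⋙ Kneg m).map (GrpCat.ofHom V.subtype)).hom.range

/-- The subgroup of `K_{-m}(R[G])` generated by the images of the groups `K_{-m}(R[V])` for the
virtually cyclic subgroups `V` of `G`; if `G` is torsion-free then only the cyclic subgroups `V` of
`G` are used. -/
noncomputable def vcSub (R : Type) [Ring R] (m : ℕ) (G : GrpCat.{0}) :
    AddSubgroup ((Kneg m).obj ((gr R).obj G)) :=
  ⨆ V : {V : Subgroup G // IsVC V ∧ (TF G → IsCyclic V)}, img R m G V.1

/-- The projective module `Aⁿ e` is isomorphic to the cokernel of the matrix `M`. -/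
def Pres {A : Type} [Ring A] (e : Idem A) {p q : ℕ} (M : Matrix (Fin p) (Fin q) A) : Prop :=
  Nonempty (W e ≃ₗ[A] Coker M)

/-- For a homomorphism of groups `φ : E → G`: the projective module `Aⁿ e` over `A = R[E]` has a
presentation matrix `M` whose support is controlled over `G` by an integral matrix `B` which acts on
`ℓ²(G)` with norm less than `3/√2`. -/
def Controlled {R : Type} [Ring R] {E G : Type} [Group E] [Group G] (φ : E →* G)
    (e : Idem (MonoidAlgebra R E)) : Prop :=
  ∃ (p q : ℕ) (M : Matrix (Fin p) (Fin q) (MonoidAlgebra R E))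
    (B : Matrix (Fin p) (Fin q) (MonoidAlgebra ℤ G)) (c : ℝ),
    Pres e M ∧ 0 < c ∧ c ^ 2 < 9 / 2 ∧ NormLE B c ∧ Ctrl φ B M

/-- The class in `K_{-m}(R[G])` of an idempotent matrix over `R[ℤᵐ × G]`. -/
noncomputable def kclass (R : Type) [Ring R] (m : ℕ) (G : GrpCat.{0})
    (e : Idem (MonoidAlgebra R ((EF m).obj G))) : (Kneg m).obj ((gr R).obj G) :=
  ((kclT R m).app G).hom (cls e)

end Pool.Agent.Y75.NK
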