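import Mathlib

set_option autoImplicit false

/-!
The Grothendieck group `K₀` and Bass's negative `K`-groups, as functors on rings.
-/

namespace Pool.Agent.Y75.NK

open CategoryTheory

/-- An idempotent matrix over the ring `A`. -/
structure Idem (A : Type) [Ring A] : Type where
  /-- The size. -/
  n : ℕ
  /-- The matrix. -/
  e : Matrix (Fin n) (Fin n) A
  /-- It is idempotent. -/
  idem : e * e = e

variable {A B C : Type} [Ring A] [Ring B] [Ring C]

/-- The block sum of two idempotent matrices. -/
def Idem.sum (e f : Idem A) : Idem A where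
  n := e.n + f.n
  e := (Matrix.fromBlocks e.e 0 0 f.e).submatrix finSumFinEquiv.symm finSumFinEquiv.symm
  idem := by
    rw [Matrix.submatrix_mul_equiv, Matrix.fromBlocks_multiply]
    simp only [Matrix.mul_zero, Matrix.zero_mul, add_zero, zero_add, e.idem, f.idem]

/-- The image of an idempotent matrix under a ring homomorphism. -/
def Idem.map (φ : A →+* B) (e : Idem A) : Idem B where
  n := e.n
  e := e.e.map φ
  idem := by rw [← Matrix.map_mul, e.idem]

/-- Two idempotent matrices `e`, `f` are equivalent if `e = x y` and `f = y x` for some matrices `x`,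
`y`; equivalently, the projective modules `Aⁿ e` and `Aᵐ f` are isomorphic. -/
def Idem.Equiv (e f : Idem A) : Prop :=
  ∃ (x : Matrix (Fin e.n) (Fin f.n) A) (y : Matrix (Fin f.n) (Fin e.n) A), x * y = e.e ∧ y * x = f.e

/-- The relations of `K₀`: equivalent idempotents have the same class, and the class of a block sum is
the sum of the classes. -/
def rel (A : Type) [Ring A] : AddSubgroup (FreeAbelianGroup (Idem A)) :=
  AddSubgroup.closure
    ({z | ∃ e f : Idem A, z = .of (e.sum f) - .of e - .of f} ∪
      {z | ∃ e f : Idem A, e.Equiv f ∧ z = .of e - .of f})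

/-- The group `K₀(A)`. -/
abbrev K0 (A : Type) [Ring A] : Type := FreeAbelianGroup (Idem A) ⧸ rel A

/-- The class of an idempotent matrix in `K₀(A)`. -/
def cls (e : Idem A) : K0 A := QuotientAddGroup.mk (FreeAbelianGroup.of e)

theorem cls_sum (e f : Idem A) : cls (e.sum f) = cls e + cls f := by
  have h : (FreeAbelianGroup.of (e.sum f) - FreeAbelianGroup.of e - FreeAbelianGroup.of f) ∈
      rel A := AddSubgroup.subset_closure (Or.inl ⟨e, f, rfl⟩)
  have h2 := (QuotientAddGroup.eq_zero_iff _).2 h
  rw [QuotientAddGroup.mk_sub, QuotientAddGroup.mk_sub] at h2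
  have h3 : cls (e.sum f) - cls e - cls f = 0 := h2
  rw [sub_sub, sub_eq_zero] at h3
  exact h3

theorem cls_eq {e f : Idem A} (h : e.Equiv f) : cls e = cls f := by
  have h1 : (FreeAbelianGroup.of e - FreeAbelianGroup.of f) ∈ rel A :=
    AddSubgroup.subset_closure (Or.inr ⟨e, f, h, rfl⟩)
  have h2 := (QuotientAddGroup.eq_zero_iff _).2 h1
  rw [QuotientAddGroup.mk_sub] at h2
  exact sub_eq_zero.1 h2

theorem map_sum_equiv (φ : A →+* B) (e f : Idem A) :
    (e.sum f).map φ = (e.map φ).sum (f.map φ) := by
  unfold Idem.map Idem.sum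
  congr 1
  ext i j
  simp only [Matrix.map_apply, Matrix.submatrix_apply]
  rcases finSumFinEquiv.symm i with i | i <;> rcases finSumFinEquiv.symm j with j | j <;> simp

theorem rel_le (φ : A →+* B) :
    rel A ≤ (rel B).comap (FreeAbelianGroup.map (Idem.map φ)) := by
  unfold rel
  rw [AddSubgroup.closure_le]
  rintro z (⟨e, f, rfl⟩ | ⟨e, f, ⟨x, y, hx, hy⟩, rfl⟩)
  · apply AddSubgroup.subset_closure
    refine Or.inl ⟨e.map φ, f.map φ, ?_⟩
    rw [map_sub, map_sub, FreeAbelianGroup.map_of_apply, FreeAbelianGroup.map_of_apply,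
      FreeAbelianGroup.map_of_apply, map_sum_equiv]
  · apply AddSubgroup.subset_closure
    refine Or.inr ⟨e.map φ, f.map φ, ⟨x.map φ, y.map φ, ?_, ?_⟩, ?_⟩
    · change x.map φ * y.map φ = e.e.map φ
      rw [← Matrix.map_mul, hx]
    · change y.map φ * x.map φ = f.e.map φ
      rw [← Matrix.map_mul, hy]
    · rw [map_sub, FreeAbelianGroup.map_of_apply, FreeAbelianGroup.map_of_apply]

/-- The map of `K₀` induced by a ring homomorphism. -/
def K0.map (φ : A →+* B) : K0 A →+ K0 B :=
  QuotientAddGroup.map (rel A) (rel B) (FreeAbelianGroup.map (Idem.map φ)) (rel_le φ)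

theorem K0.map_cls (φ : A →+* B) (e : Idem A) : K0.map φ (cls e) = cls (e.map φ) := rfl

theorem K0.hom_ext {M : Type} [AddCommGroup M] {f g : K0 A →+ M}
    (h : ∀ e, f (cls e) = g (cls e)) : f = g := by
  apply QuotientAddGroup.addMonoidHom_ext
  apply FreeAbelianGroup.lift_ext
  intro e
  exact h e

theorem K0.map_id : K0.map (RingHom.id A) = AddMonoidHom.id (K0 A) := by
  apply K0.hom_ext
  intro e
  rfl

theorem K0.map_comp (ψ : B →+* C) (φ : A →+* B) :
    K0.map (ψ.comp φ) = (K0.map ψ).comp (K0.map φ) := by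
  apply K0.hom_ext
  intro e
  rfl

/-- The functor `K₀` from rings to abelian groups. -/
def K0F : RingCat.{0} ⥤ AddCommGrpCat.{0} where
  obj A := AddCommGrpCat.of (K0 A)
  map f := AddCommGrpCat.ofHom (K0.map f.hom)
  map_id A := by
    apply AddCommGrpCat.hom_ext
    exact K0.map_id
  map_comp f g := by
    apply AddCommGrpCat.hom_ext
    exact K0.map_comp _ _

/-- The polynomial ring `A[t]`, as the monoid ring of `ℕ`, and more generally the monoid ring of a
commutative monoid, as a functor of `A`. -/
noncomputable def monF (M : Type) [CommMonoid M] : RingCat.{0} ⥤ RingCat.{0} where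
  obj A := RingCat.of (MonoidAlgebra A M)
  map f := RingCat.ofHom (MonoidAlgebra.mapRingHom M f.hom)
  map_id A := by
    apply RingCat.hom_ext
    exact MonoidAlgebra.mapRingHom_id
  map_comp f g := by
    apply RingCat.hom_ext
    exact MonoidAlgebra.mapRingHom_comp _ _

/-- The map of monoid rings induced by a homomorphism of monoids. -/
noncomputable def monT {M N : Type} [CommMonoid M] [CommMonoid N] (h : M →* N) :
    monF M ⟶ monF N where
  app A := RingCat.ofHom (MonoidAlgebra.mapDomainRingHom A h)
  naturality A B f := by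
    apply RingCat.hom_ext
    apply RingHom.ext
    intro x
    change MonoidAlgebra.mapDomainRingHom B h (MonoidAlgebra.mapRingHom M f.hom x) =
      MonoidAlgebra.mapRingHom N f.hom (MonoidAlgebra.mapDomainRingHom A h x)
    induction x using MonoidAlgebra.induction_linear with
    | zero => rw [map_zero, map_zero, map_zero, map_zero]
    | add x y hx hy => rw [map_add, map_add, map_add, map_add, hx, hy]
    | single m a => simp

/-- The inclusion of the polynomials in `t` into the Laurent polynomials. -/
noncomputable def plus : monF (Multiplicative ℕ) ⟶ monF (Multiplicative ℤ) :=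
  monT (AddMonoidHom.toMultiplicative (Nat.castAddMonoidHom ℤ))

/-- The inclusion of the polynomials in `t⁻¹` into the Laurent polynomials. -/
noncomputable def minus : monF (Multiplicative ℕ) ⟶ monF (Multiplicative ℤ) :=
  monT (AddMonoidHom.toMultiplicative (-(Nat.castAddMonoidHom ℤ)))

/-- The subgroup `F(A[t]) + F(A[t⁻¹])` of `F(A[t, t⁻¹])`. -/
noncomputable def polySub (F : RingCat.{0} ⥤ AddCommGrpCat.{0}) (A : RingCat.{0}) :
    AddSubgroup (F.obj ((monF (Multiplicative ℤ)).obj A)) :=
  (F.map (plus.app A)).hom.range ⊔ (F.map (minus.app A)).hom.range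

theorem polySub_le (F : RingCat.{0} ⥤ AddCommGrpCat.{0}) {A B : RingCat.{0}} (f : A ⟶ B) :
    polySub F A ≤ (polySub F B).comap (F.map ((monF (Multiplicative ℤ)).map f)).hom := by
  unfold polySub
  rw [sup_le_iff]
  constructor
  · rintro _ ⟨x, rfl⟩
    refine AddSubgroup.mem_comap.2 (AddSubgroup.mem_sup_left ?_)
    refine ⟨(F.map ((monF (Multiplicative ℕ)).map f)).hom x, ?_⟩
    have h := congrArg (fun g => (F.map g).hom x) (plus.naturality f)
    simp only [F.map_comp] at h
    exact h
  · rintro _ ⟨x, rfl⟩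
    refine AddSubgroup.mem_comap.2 (AddSubgroup.mem_sup_right ?_)
    refine ⟨(F.map ((monF (Multiplicative ℕ)).map f)).hom x, ?_⟩
    have h := congrArg (fun g => (F.map g).hom x) (minus.naturality f)
    simp only [F.map_comp] at h
    exact h

/-- **Bass's contraction** of a functor `F`: `A ↦ coker (F(A[t]) ⊕ F(A[t⁻¹]) → F(A[t, t⁻¹]))`. -/
noncomputable def contr (F : RingCat.{0} ⥤ AddCommGrpCat.{0}) :
    RingCat.{0} ⥤ AddCommGrpCat.{0} where
  obj A := AddCommGrpCat.of (F.obj ((monF (Multiplicative ℤ)).obj A) ⧸ polySub F A)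
  map f := AddCommGrpCat.ofHom (QuotientAddGroup.map _ _
    (F.map ((monF (Multiplicative ℤ)).map f)).hom (polySub_le F f))
  map_id A := by
    apply AddCommGrpCat.hom_ext
    apply QuotientAddGroup.addMonoidHom_ext
    apply AddMonoidHom.ext
    intro x
    have h : (F.map ((monF (Multiplicative ℤ)).map (𝟙 A))).hom x = x := by
      rw [CategoryTheory.Functor.map_id, CategoryTheory.Functor.map_id]
      rfl
    exact congrArg (QuotientAddGroup.mk' (polySub F A)) h
  map_comp {A B C} f g := by
    apply AddCommGrpCat.hom_ext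
    apply QuotientAddGroup.addMonoidHom_ext
    apply AddMonoidHom.ext
    intro x
    have h : (F.map ((monF (Multiplicative ℤ)).map (f ≫ g))).hom x =
        (F.map ((monF (Multiplicative ℤ)).map g)).hom
          ((F.map ((monF (Multiplicative ℤ)).map f)).hom x) := by
      rw [CategoryTheory.Functor.map_comp, CategoryTheory.Functor.map_comp]
      rfl
    exact congrArg (QuotientAddGroup.mk' (polySub F C)) h

/-- **Bass's negative `K`-groups** `K_{-m}(A)`, as functors of the ring `A`. -/
noncomputable def Kneg : ℕ → (RingCat.{0} ⥤ AddCommGrpCat.{0})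
  | 0 => K0F
  | m + 1 => contr (Kneg m)

/-- The ring `A[t_1, t_1⁻¹, …, t_m, t_m⁻¹]`. -/
noncomputable def lau : ℕ → (RingCat.{0} ⥤ RingCat.{0})
  | 0 => 𝟭 _
  | m + 1 => monF (Multiplicative ℤ) ⋙ lau m

/-- The canonical surjection from `F(A[t, t⁻¹])` to its quotient `(contr F)(A)`. -/
noncomputable def quotT (F : RingCat.{0} ⥤ AddCommGrpCat.{0}) :
    monF (Multiplicative ℤ) ⋙ F ⟶ contr F where
  app A := AddCommGrpCat.ofHom (QuotientAddGroup.mk' (polySub F A))
  naturality A B f := by
    apply AddCommGrpCat.hom_ext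
    apply AddMonoidHom.ext
    intro x
    rfl

/-- The canonical surjection from `K₀(A[t_1, t_1⁻¹, …, t_m, t_m⁻¹])` to `K_{-m}(A)`. -/
noncomputable def projT : ∀ m : ℕ, lau m ⋙ K0F ⟶ Kneg m
  | 0 => (Functor.leftUnitor K0F).hom
  | m + 1 => (Functor.associator _ _ _).hom ≫
      Functor.whiskerLeft (monF (Multiplicative ℤ)) (projT m) ≫ quotT (Kneg m)

theorem projT_surj : ∀ (m : ℕ) (A : RingCat.{0}), Function.Surjective ((projT m).app A).hom
  | 0, _ => Function.surjective_id
  | m + 1, A => (QuotientAddGroup.mk'_surjective _).comp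
      (projT_surj m ((monF (Multiplicative ℤ)).obj A))

end Pool.Agent.Y75.NK
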