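import Pool.Agent.Y75.NK.K0

set_option autoImplicit false

/-!
Iterated Laurent polynomial rings over group rings, as group rings.
-/

namespace Pool.Agent.Y75.NK

open CategoryTheory

/-- The functor `G ↦ ℤ × G` on groups. -/
def tz : GrpCat.{0} ⥤ GrpCat.{0} where
  obj G := GrpCat.of (Multiplicative ℤ × G)
  map f := GrpCat.ofHom (MonoidHom.prodMap (MonoidHom.id _) f.hom)
  map_id A := by
    apply GrpCat.hom_ext
    apply MonoidHom.ext
    intro x
    rfl
  map_comp f g := by
    apply GrpCat.hom_ext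
    apply MonoidHom.ext
    intro x
    rfl

/-- The group `ℤᵐ × G`, as a functor of `G`. -/
def EF : ℕ → (GrpCat.{0} ⥤ GrpCat.{0})
  | 0 => 𝟭 _
  | m + 1 => tz ⋙ EF m

/-- The projection of `ℤᵐ × G` to `G`. -/
def prj : ∀ (m : ℕ) (G : GrpCat.{0}), (EF m).obj G →* G
  | 0, G => MonoidHom.id G
  | m + 1, G => (MonoidHom.snd (Multiplicative ℤ) G).comp (prj m (tz.obj G))

theorem prj_surj : ∀ (m : ℕ) (G : GrpCat.{0}), Function.Surjective (prj m G)
  | 0, _ => Function.surjective_id
  | m + 1, G => (Prod.snd_surjective).comp (prj_surj m (tz.obj G))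

theorem EF_inj : ∀ (m : ℕ) {H G : GrpCat.{0}} (f : H ⟶ G), Function.Injective f.hom →
    Function.Injective ((EF m).map f).hom
  | 0, _, _, _, hf => hf
  | m + 1, H, G, f, hf => by
    refine EF_inj m (tz.map f) ?_
    rintro ⟨a, b⟩ ⟨c, d⟩ h
    have h1 : a = c := congrArg Prod.fst h
    have h2 : f.hom b = f.hom d := congrArg Prod.snd h
    rw [h1, hf h2]

theorem EF_range : ∀ (m : ℕ) {H G : GrpCat.{0}} (f : H ⟶ G) (x : (EF m).obj G),
    prj m G x ∈ f.hom.range → x ∈ ((EF m).map f).hom.range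
  | 0, _, _, _, _, hx => hx
  | m + 1, H, G, f, x, hx => by
    refine EF_range m (tz.map f) x ?_
    obtain ⟨y, hy⟩ := hx
    exact ⟨((prj m (tz.obj G) x).1, y), Prod.ext rfl hy⟩

/-- The group ring `R[G]`, as a functor of `G`. -/
noncomputable def gr (R : Type) [Ring R] : GrpCat.{0} ⥤ RingCat.{0} where
  obj G := RingCat.of (MonoidAlgebra R G)
  map f := RingCat.ofHom (MonoidAlgebra.mapDomainRingHom R f.hom)
  map_id A := by
    apply RingCat.hom_ext
    exact MonoidAlgebra.mapDomainRingHom_id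
  map_comp f g := by
    apply RingCat.hom_ext
    exact (MonoidAlgebra.mapDomainRingHom_comp _ _)

theorem cur_nat (R : Type) [Ring R] {H G : Type} [Group H] [Group G] (f : H →* G)
    (x : MonoidAlgebra (MonoidAlgebra R H) (Multiplicative ℤ)) :
    (MonoidAlgebra.curryRingEquiv (R := R) (M := Multiplicative ℤ) (N := G)).symm
        (MonoidAlgebra.mapRingHom (Multiplicative ℤ) (MonoidAlgebra.mapDomainRingHom R f) x) =
      MonoidAlgebra.mapDomainRingHom R (MonoidHom.prodMap (MonoidHom.id (Multiplicative ℤ)) f)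
        ((MonoidAlgebra.curryRingEquiv (R := R) (M := Multiplicative ℤ) (N := H)).symm x) := by
  induction x using MonoidAlgebra.induction_linear with
  | zero => simp only [map_zero]
  | add x y hx hy => rw [map_add, map_add, map_add, map_add, hx, hy]
  | single m a =>
    induction a using MonoidAlgebra.induction_linear with
    | zero => simp only [MonoidAlgebra.single_zero, map_zero]
    | add x y hx hy => rw [MonoidAlgebra.single_add, map_add, map_add, map_add, map_add, hx, hy]
    | single n r => simp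

/-- The isomorphism `R[G][t, t⁻¹] = R[ℤ × G]`. -/
noncomputable def cur (R : Type) [Ring R] :
    gr R ⋙ monF (Multiplicative ℤ) ≅ tz ⋙ gr R :=
  NatIso.ofComponents
    (fun G => RingEquiv.toRingCatIso
      (MonoidAlgebra.curryRingEquiv (R := R) (M := Multiplicative ℤ) (N := G)).symm) (by
    intro H G f
    apply RingCat.hom_ext
    apply RingHom.ext
    intro x
    exact cur_nat R f.hom x)

/-- The isomorphism `R[G][t_1, t_1⁻¹, …, t_m, t_m⁻¹] = R[ℤᵐ × G]`. -/
noncomputable def theta (R : Type) [Ring R] : ∀ m : ℕ, gr R ⋙ lau m ≅ EF m ⋙ gr R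
  | 0 => Iso.refl _
  | m + 1 => Functor.isoWhiskerRight (cur R) (lau m) ≪≫ Functor.isoWhiskerLeft tz (theta R m)

/-- The canonical surjection from `K₀(R[ℤᵐ × G])` to `K_{-m}(R[G])`. -/
noncomputable def kclT (R : Type) [Ring R] (m : ℕ) :
    (EF m ⋙ gr R) ⋙ K0F ⟶ gr R ⋙ Kneg m :=
  Functor.whiskerRight (theta R m).inv K0F ≫ (Functor.associator _ _ _).hom ≫
    Functor.whiskerLeft (gr R) (projT m)

theorem kclT_surj (R : Type) [Ring R] (m : ℕ) (G : GrpCat.{0}) :
    Function.Surjective ((kclT R m).app G).hom := by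
  intro x
  obtain ⟨y, hy⟩ := projT_surj m ((gr R).obj G) x
  have h1 : (theta R m).hom.app G ≫ (theta R m).inv.app G = 𝟙 _ := Iso.hom_inv_id_app _ _
  have h2 : K0F.map ((theta R m).hom.app G) ≫ K0F.map ((theta R m).inv.app G) = 𝟙 _ := by
    rw [← K0F.map_comp, h1, K0F.map_id]
  have h3 : (K0F.map ((theta R m).inv.app G)).hom
      ((K0F.map ((theta R m).hom.app G)).hom y) = y := congrArg (fun z => z.hom y) h2
  exact ⟨(K0F.map ((theta R m).hom.app G)).hom y,
    (congrArg ((projT m).app ((gr R).obj G)).hom h3).trans hy⟩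

end Pool.Agent.Y75.NK
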