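import Pool.Agent.Y75.NK.Defs

set_option autoImplicit false

/-!
Classes in the negative `K`-groups of a group ring which are controlled over the group.
-/

namespace Pool.Agent.Y75.NK

open CategoryTheory TH6.FB TH6.PF TH57.Thr Matrix

/-- A subgroup `V` of `ℤᵐ × G` lies in `ℤᵐ × C` where `C` is the image of `V` in `G`. -/
theorem factor (m : ℕ) (G : GrpCat.{0}) (V : Subgroup ((EF m).obj G)) :
    ∃ ν : V →* (EF m).obj (GrpCat.of (V.map (prj m G))),
      ∀ v, ((EF m).map (GrpCat.ofHom (V.map (prj m G)).subtype)).hom (ν v) = v.1 := by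
  classical
  let f : GrpCat.of (V.map (prj m G)) ⟶ G := GrpCat.ofHom (V.map (prj m G)).subtype
  have hinj : Function.Injective ((EF m).map f).hom := EF_inj m f (Subgroup.subtype_injective _)
  have hr : ∀ v : V, ∃ y, ((EF m).map f).hom y = v.1 := fun v =>
    EF_range m f v.1 ⟨⟨prj m G v.1, Subgroup.mem_map_of_mem _ v.2⟩, rfl⟩
  choose ν hν using hr
  refine ⟨MonoidHom.mk' ν ?_, hν⟩
  intro v w
  apply hinj
  rw [map_mul, hν, hν, hν]
  rfl

theorem mem_vcSub (R : Type) [Ring R] (m : ℕ) (G : GrpCat.{0})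
    (e : Idem (MonoidAlgebra R ((EF m).obj G))) (h : Controlled (prj m G) e) :
    kclass R m G e ∈ vcSub R m G := by
  obtain ⟨p, q, M, B, c, ⟨α⟩, hc0, hc, hB, hM⟩ := h
  obtain ⟨k, V, p', q', D, hV, hV2, ⟨β⟩, hpr⟩ :=
    ctrl_modules (prj m G) (prj_surj m G) (W e) p q M α B c hc0 hc hB hM
  have hWp : Module.Projective (MonoidAlgebra R ((EF m).obj G)) (W e) := by
    refine Module.Projective.of_split (W e).subtype e.e.vecMulLinear.rangeRestrict ?_
    apply LinearMap.ext
    rintro ⟨_, v, rfl⟩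
    apply Subtype.ext
    change (v ᵥ* e.e) ᵥ* e.e = v ᵥ* e.e
    rw [Matrix.vecMul_vecMul, e.idem]
  have hpr2 := hpr hWp
  have hY : ∀ b, ∃ Y : Matrix (Fin (q' b)) (Fin (p' b)) (MonoidAlgebra R (V b)),
      D b * Y * D b = D b := fun b =>
    regular_of_projective (D b) (Coker (D b)) (hpr2 b) (LinearEquiv.refl _ _)
  choose Y hY using hY
  let ι : ∀ b, MonoidAlgebra R (V b) →+* MonoidAlgebra R ((EF m).obj G) := fun b =>
    MonoidAlgebra.mapDomainRingHom R (V b).subtype
  have hY' : ∀ b, (D b).map (ι b) * (Y b).map (ι b) * (D b).map (ι b) = (D b).map (ι b) := by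
    intro b
    rw [← Matrix.map_mul, ← Matrix.map_mul, hY b]
  have h1 : cls e = ∑ b, K0.map (ι b) (cls (regIdem (D b) (Y b) (hY b))) := by
    rw [cls_of_coker e k p' q' (fun b => (D b).map (ι b)) (fun b => (Y b).map (ι b)) hY' β]
    refine Finset.sum_congr rfl fun b _ => ?_
    rw [K0.map_cls, regIdem_map (ι b) (D b) (Y b) (hY b) (hY' b)]
  let κ : K0 (MonoidAlgebra R ((EF m).obj G)) →+ (Kneg m).obj ((gr R).obj G) :=
    ((kclT R m).app G).hom
  change κ (cls e) ∈ vcSub R m G
  rw [h1, map_sum]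
  refine AddSubgroup.sum_mem _ fun b _ => ?_
  obtain ⟨ν, hν⟩ := factor m G (V b)
  let f : GrpCat.of ((V b).map (prj m G)) ⟶ G := GrpCat.ofHom ((V b).map (prj m G)).subtype
  let x : K0 ((gr R).obj ((EF m).obj (GrpCat.of ((V b).map (prj m G))))) :=
    K0.map (MonoidAlgebra.mapDomainRingHom R ν) (cls (regIdem (D b) (Y b) (hY b)))
  have h2 : K0.map (ι b) (cls (regIdem (D b) (Y b) (hY b))) =
      K0.map ((gr R).map ((EF m).map f)).hom x := by
    have h3 : ι b = ((gr R).map ((EF m).map f)).hom.comp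
        (MonoidAlgebra.mapDomainRingHom R ν) := by
      have h4 : ((EF m).map f).hom.comp ν = (V b).subtype := MonoidHom.ext hν
      change MonoidAlgebra.mapDomainRingHom R (V b).subtype =
        (MonoidAlgebra.mapDomainRingHom R ((EF m).map f).hom).comp
          (MonoidAlgebra.mapDomainRingHom R ν)
      rw [← MonoidAlgebra.mapDomainRingHom_comp, h4]
    rw [h3]
    exact DFunLike.congr_fun (K0.map_comp ((gr R).map ((EF m).map f)).hom
      (MonoidAlgebra.mapDomainRingHom R ν)) _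
  have h5 := congrArg (fun z => z.hom x) ((kclT R m).naturality f)
  have h6 : κ (K0.map (ι b) (cls (regIdem (D b) (Y b) (hY b)))) =
      ((gr R ⋙ Kneg m).map f).hom (((kclT R m).app _).hom x) := (congrArg κ h2).trans h5
  rw [h6]
  exact AddSubgroup.mem_iSup_of_mem
    (⟨(V b).map (prj m G), hV b, fun h => hV2 h b⟩ :
      {V : Subgroup G // IsVC V ∧ (TF G → IsCyclic V)}) ⟨_, rfl⟩

/-- Every element of `K₀(A)` is the difference of the classes of two idempotent matrices. -/
theorem exists_sub {A : Type} [Ring A] (x : K0 A) : ∃ e f : Idem A, x = cls e - cls f := by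
  induction x using QuotientAddGroup.induction_on with
  | H z =>
    induction z using FreeAbelianGroup.induction_on with
    | zero =>
      obtain ⟨g, hg, -⟩ := cls_pi 0 (fun b : Fin 0 => (b.elim0 : Idem A))
      exact ⟨g, g, by rw [sub_self]; rfl⟩
    | of e =>
      obtain ⟨g, hg, -⟩ := cls_pi 0 (fun b : Fin 0 => (b.elim0 : Idem A))
      refine ⟨e, g, ?_⟩
      rw [hg, Finset.univ_eq_empty, Finset.sum_empty, sub_zero]
      rfl
    | neg e _ =>
      obtain ⟨g, hg, -⟩ := cls_pi 0 (fun b : Fin 0 => (b.elim0 : Idem A))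
      refine ⟨g, e, ?_⟩
      rw [hg, Finset.univ_eq_empty, Finset.sum_empty, zero_sub]
      rfl
    | add x y hx hy =>
      obtain ⟨e, f, h⟩ := hx
      obtain ⟨e', f', h'⟩ := hy
      refine ⟨e.sum e', f.sum f', ?_⟩
      rw [QuotientAddGroup.mk_add, h, h', cls_sum, cls_sum]
      abel

theorem kclass_generate (R : Type) [Ring R] (m : ℕ) (G : GrpCat.{0})
    (x : (Kneg m).obj ((gr R).obj G)) :
    ∃ e f : Idem (MonoidAlgebra R ((EF m).obj G)), x = kclass R m G e - kclass R m G f := by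
  obtain ⟨y, hy⟩ := kclT_surj R m G x
  obtain ⟨e, f, h⟩ := exists_sub y
  refine ⟨e, f, ?_⟩
  rw [← hy, h]
  let κ : K0 (MonoidAlgebra R ((EF m).obj G)) →+ (Kneg m).obj ((gr R).obj G) :=
    ((kclT R m).app G).hom
  exact map_sub κ (cls e) (cls f)

theorem eq_zero (R : Type) [Ring R] (m : ℕ) (G : GrpCat.{0}) (hG : TF G)
    (hR : ∀ C : GrpCat.{0}, IsCyclic C → TF C → Subsingleton ((Kneg m).obj ((gr R).obj C)))
    (e : Idem (MonoidAlgebra R ((EF m).obj G))) (h : Controlled (prj m G) e) :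
    kclass R m G e = 0 := by
  have h1 : vcSub R m G = ⊥ := by
    unfold vcSub
    rw [iSup_eq_bot]
    rintro ⟨V, hV, hV2⟩
    rw [eq_bot_iff]
    rintro _ ⟨x, rfl⟩
    have h2 : TF (GrpCat.of V) := fun g k hk h => Subtype.ext
      (hG g.1 k hk (by simpa using congrArg Subtype.val h))
    have h3 : x = 0 := @Subsingleton.elim _ (hR (GrpCat.of V) (hV2 hG) h2) _ _
    rw [h3, map_zero]
    exact AddSubgroup.zero_mem _
  have h2 := mem_vcSub R m G e h
  rw [h1] at h2
  exact h2

end Pool.Agent.Y75.NK
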